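import Pool.Agent.K1H40.CT.Stm

/-!
# Localization and polarization
-/

set_option autoImplicit false

namespace Pool.Agent.K1H39.CT

open MvPolynomial Pool.Agent.W474.Cat Pool.Agent.K1H40.CT

universe u w

/-! ### symmetry of the generic tensor -/

theorem zX_s1 (k : Type u) [CommRing k] (n : ℕ) (a b c d : Fin n) :
    zX k n a b c d = zX k n b a c d := by
  unfold zX
  congr 1
  apply Subtype.ext
  funext t
  simp only [Mon.add, M2]
  ring

theorem zX_s2 (k : Type u) [CommRing k] (n : ℕ) (a b c d : Fin n) :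
    zX k n a b c d = zX k n a c b d := by
  unfold zX
  congr 1
  apply Subtype.ext
  funext t
  simp only [Mon.add, M2]
  ring

theorem zX_s3 (k : Type u) [CommRing k] (n : ℕ) (a b c d : Fin n) :
    zX k n a b c d = zX k n a b d c := by
  unfold zX
  congr 1
  apply Subtype.ext
  funext t
  simp only [Mon.add, M2]
  ring

theorem t_GEN : S_GEN.{u} := by
  intro k _ n
  refine ⟨fun a b c d => ?_, fun a b c d => ?_, fun a b c d => ?_, fun r c => ?_⟩
  · simp only [zX_s1 k n a b c d]
  · simp only [zX_s2 k n a b c d]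
  · simp only [zX_s3 k n a b c d]
  · have h1 : (Matrix.of fun i j => Ideal.Quotient.mk (minorsIdeal k n 2 2 6)
        (zX k n (r i).1 (r i).2 (c j).1 (c j).2)) =
        (Ideal.Quotient.mk (minorsIdeal k n 2 2 6)).mapMatrix
          ((catalecticant k n 2 2).submatrix (fun i => M2 (r i).1 (r i).2)
            (fun j => M2 (c j).1 (c j).2)) := by
      ext i j
      rfl
    rw [h1, ← RingHom.map_det, Ideal.Quotient.eq_zero_iff_mem]
    exact Ideal.subset_span ⟨_, _, rfl⟩

/-! ### the form -/

/-- the form `F(x, y, z, w)` with polynomial values -/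
noncomputable def G (k : Type u) [CommRing k] (n : ℕ) (x y z w : Fin n → k) :
    MvPolynomial (Mon n (2 + 2)) k :=
  ∑ a, ∑ b, ∑ c, ∑ d, C (x a * y b * z c * w d) * zX k n a b c d

theorem G_s1 (k : Type u) [CommRing k] (n : ℕ) (x y z w : Fin n → k) :
    G k n x y z w = G k n y x z w := by
  unfold G
  rw [Finset.sum_comm]
  refine Finset.sum_congr rfl fun b _ => Finset.sum_congr rfl fun a _ =>
    Finset.sum_congr rfl fun c _ => Finset.sum_congr rfl fun d _ => ?_
  rw [zX_s1 k n a b c d, mul_comm (x a) (y b)]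

theorem G_s2 (k : Type u) [CommRing k] (n : ℕ) (x y z w : Fin n → k) :
    G k n x y z w = G k n x z y w := by
  unfold G
  refine Finset.sum_congr rfl fun a _ => ?_
  rw [Finset.sum_comm]
  refine Finset.sum_congr rfl fun b _ =>
    Finset.sum_congr rfl fun c _ => Finset.sum_congr rfl fun d _ => ?_
  rw [zX_s2 k n a c b d, mul_right_comm (x a) (y c) (z b)]

theorem G_s3 (k : Type u) [CommRing k] (n : ℕ) (x y z w : Fin n → k) :
    G k n x y z w = G k n x y w z := by
  unfold G
  refine Finset.sum_congr rfl fun a _ => Finset.sum_congr rfl fun b _ => ?_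
  rw [Finset.sum_comm]
  refine Finset.sum_congr rfl fun c _ => Finset.sum_congr rfl fun d _ => ?_
  rw [zX_s3 k n a b d c, mul_right_comm (x a * y b) (z d) (w c)]

theorem G_add (k : Type u) [CommRing k] (n : ℕ) (x x' y z w : Fin n → k) :
    G k n (x + x') y z w = G k n x y z w + G k n x' y z w := by
  unfold G
  simp only [Pi.add_apply, add_mul, map_add, Finset.sum_add_distrib]

theorem G_single (k : Type u) [CommRing k] (n : ℕ) (a b c d : Fin n) :
    G k n (Pi.single a 1) (Pi.single b 1) (Pi.single c 1) (Pi.single d 1) = zX k n a b c d := by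
  unfold G
  rw [Finset.sum_eq_single a, Finset.sum_eq_single b, Finset.sum_eq_single c,
    Finset.sum_eq_single d]
  · simp
  · intro i _ hi
    simp [Pi.single_eq_of_ne hi]
  · simp
  · intro i _ hi
    simp [Pi.single_eq_of_ne hi]
  · simp
  · intro i _ hi
    simp [Pi.single_eq_of_ne hi]
  · simp
  · intro i _ hi
    simp [Pi.single_eq_of_ne hi]
  · simp

/-! ### polarization -/

theorem polar {V M : Type*} [AddCommGroup V] [AddCommGroup M] (F : V → V → V → V → M)
    (h2 : ∀ m : M, m + m = 0 → m = 0) (h3 : ∀ m : M, m + m + m = 0 → m = 0)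
    (s1 : ∀ x y z w, F x y z w = F y x z w) (s2 : ∀ x y z w, F x y z w = F x z y w)
    (s3 : ∀ x y z w, F x y z w = F x y w z)
    (hadd : ∀ x x' y z w, F (x + x') y z w = F x y z w + F x' y z w)
    (h0 : ∀ x, F x x x x = 0) : ∀ x y z w, F x y z w = 0 := by
  have hadd2 : ∀ x y y' z w, F x (y + y') z w = F x y z w + F x y' z w := by
    intro x y y' z w
    rw [s1, hadd, s1 y, s1 y']
  have hadd3 : ∀ x y z z' w, F x y (z + z') w = F x y z w + F x y z' w := by
    intro x y z z' w
    rw [s2, hadd2, s2 x z, s2 x z']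
  have hadd4 : ∀ x y z w w', F x y z (w + w') = F x y z w + F x y z w' := by
    intro x y z w w'
    rw [s3, hadd3, s3 x y w, s3 x y w']
  have hneg0 : ∀ y z w, F 0 y z w = 0 := by
    intro y z w
    have := hadd 0 0 y z w
    rw [add_zero] at this
    exact left_eq_add.1 this
  have hneg : ∀ x y z w, F (-x) y z w = - F x y z w := by
    intro x y z w
    have := hadd x (-x) y z w
    rw [add_neg_cancel, hneg0] at this
    exact (neg_eq_of_add_eq_zero_right this.symm).symm
  have hneg2 : ∀ x y z w, F x (-y) z w = - F x y z w := by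
    intro x y z w
    rw [s1, hneg, s1 y]
  have hneg3 : ∀ x y z w, F x y (-z) w = - F x y z w := by
    intro x y z w
    rw [s2, hneg2, s2 x z]
  have hneg4 : ∀ x y z w, F x y z (-w) = - F x y z w := by
    intro x y z w
    rw [s3, hneg3, s3 x y w]
  -- the expansion of the fourth power
  have hexp : ∀ x y, F x x x y + F x x x y + F x x x y + F x x x y +
      (F x x y y + F x x y y + F x x y y + F x x y y + F x x y y + F x x y y) +
      (F x y y y + F x y y y + F x y y y + F x y y y) = 0 := by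
    intro x y
    have h := h0 (x + y)
    simp only [hadd, hadd2, hadd3, hadd4, h0] at h
    have e1 : F x x y x = F x x x y := s3 _ _ _ _
    have e2 : F x y x x = F x x x y := by rw [s2, e1]
    have e3 : F y x x x = F x x x y := by rw [s1, e2]
    have e4 : F x y x y = F x x y y := s2 _ _ _ _
    have e5 : F y x x y = F x x y y := by rw [s1, e4]
    have e6 : F x y y x = F x x y y := by rw [s3, e4]
    have e7 : F y x y x = F x x y y := by rw [s1, e6]
    have e8 : F y y x x = F x x y y := by rw [s2, e7]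
    have e9 : F y x y y = F x y y y := s1 _ _ _ _
    have e10 : F y y x y = F x y y y := by rw [s2, e9]
    have e11 : F y y y x = F x y y y := by rw [s3, e10]
    rw [e1, e2, e3, e4, e5, e6, e7, e8, e9, e10, e11] at h
    rw [← h]
    abel
  have hB : ∀ x y, F x x y y = 0 := by
    intro x y
    have ha := hexp x y
    have hb := hexp x (-y)
    simp only [hneg2, hneg3, hneg4, neg_neg] at hb
    set A := F x x x y
    set B := F x x y y
    set D := F x y y y
    have h12 : (B + B + (B + B) + (B + B)) + (B + B + (B + B) + (B + B)) = 0 := by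
      have : (B + B + (B + B) + (B + B)) + (B + B + (B + B) + (B + B)) =
          (A + A + A + A + (B + B + B + B + B + B) + (D + D + D + D)) +
          (-A + -A + -A + -A + (B + B + B + B + B + B) + (-D + -D + -D + -D)) := by abel
      rw [this, ha, hb, add_zero]
    exact h2 _ (h3 _ (h2 _ h12))
  have hC : ∀ x y z, F x x y z = 0 := by
    intro x y z
    have h := hB x (y + z)
    simp only [hadd3, hadd4, hB] at h
    have e1 : F x x z y = F x x y z := s3 _ _ _ _
    rw [e1] at h
    refine h2 _ ?_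
    rw [← h]
    abel
  intro x w y z
  have h := hC (x + w) y z
  simp only [hadd, hadd2, hC] at h
  rw [s1 w x] at h
  refine h2 _ ?_
  rw [← h]
  abel

/-! ### picking indices -/

theorem pick {n m : ℕ} (γ : Fin n → ℕ) (h : ∑ i, γ i = m + 1) :
    ∃ (a : Fin n) (γ' : Fin n → ℕ),
      (∀ t, γ t = Pi.single (M := fun _ => ℕ) a 1 t + γ' t) ∧ ∑ i, γ' i = m := by
  have h1 : ∃ a, γ a ≠ 0 := by
    by_contra hne
    push Not at hne
    rw [Finset.sum_congr rfl (fun i _ => hne i)] at h
    simp at h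
  obtain ⟨a, ha⟩ := h1
  have h2 : ∀ t, γ t = Pi.single (M := fun _ => ℕ) a 1 t +
      (γ t - Pi.single (M := fun _ => ℕ) a 1 t) := by
    intro t
    by_cases hta : t = a
    · subst hta
      rw [Pi.single_eq_same]
      omega
    · rw [Pi.single_eq_of_ne hta]
      omega
  refine ⟨a, fun t => γ t - Pi.single (M := fun _ => ℕ) a 1 t, h2, ?_⟩
  have h3 : ∑ i, γ i = ∑ i, Pi.single (M := fun _ => ℕ) a 1 i +
      ∑ i, (γ i - Pi.single (M := fun _ => ℕ) a 1 i) := by
    rw [← Finset.sum_add_distrib]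
    exact Finset.sum_congr rfl fun i _ => h2 i
  have h4 : ∑ i, Pi.single (M := fun _ => ℕ) a 1 i = 1 := by
    rw [Finset.sum_eq_single a] <;> simp +contextual
  show ∑ i, (γ i - Pi.single (M := fun _ => ℕ) a 1 i) = m
  omega

theorem X_eq_zX (k : Type u) [CommRing k] (n : ℕ) (γ : Mon n (2 + 2)) :
    ∃ a b c d : Fin n, (X γ : MvPolynomial (Mon n (2 + 2)) k) = zX k n a b c d := by
  obtain ⟨a, γ₁, h1, h1'⟩ := pick (m := 3) γ.1 γ.2
  obtain ⟨b, γ₂, h2, h2'⟩ := pick (m := 2) γ₁ h1'
  obtain ⟨c, γ₃, h3, h3'⟩ := pick (m := 1) γ₂ h2'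
  obtain ⟨d, γ₄, h4, h4'⟩ := pick (m := 0) γ₃ h3'
  refine ⟨a, b, c, d, ?_⟩
  unfold zX
  congr 1
  apply Subtype.ext
  funext t
  have h5 : γ₄ t = 0 := by
    have := (Finset.sum_eq_zero_iff.1 h4') t (Finset.mem_univ t)
    exact this
  simp only [Mon.add, M2]
  rw [h1, h2, h3, h4, h5]
  ring

/-! ### localization -/

theorem finite_Mon (n d : ℕ) : Finite (Mon n d) := by
  refine Finite.of_injective (β := Fin n → Fin (d + 1)) (fun γ i => ⟨γ.1 i, ?_⟩) ?_
  · have h1 := γ.2
    have h2 : γ.1 i ≤ ∑ t, γ.1 t :=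
      Finset.single_le_sum (fun _ _ => Nat.zero_le _) (Finset.mem_univ i)
    omega
  · intro γ δ h
    apply Subtype.ext
    funext i
    have := congrFun h i
    simpa using this

theorem hd_map {R : Type u} {A : Type w} [CommRing R] [CommRing A] {n : ℕ} (e : Fin 7 → Fin n)
    (z : Fin n → Fin n → Fin n → Fin n → R) (φ : R →+* A) (u : A) :
    hd e (fun a b c d => u * φ (z a b c d)) = u ^ 7 * φ (hd e z) := by
  unfold hd
  rw [map_sum, Finset.mul_sum]
  refine Finset.sum_congr rfl fun m _ => ?_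
  rw [Finset.prod_mul_distrib, Finset.prod_const, Finset.card_univ, Fintype.card_fin, map_mul,
    map_prod, map_intCast]
  ring

/-- the colon ideal -/
noncomputable def J (k : Type u) [CommRing k] (n : ℕ) (e : Fin 7 → Fin n) :
    Ideal (MvPolynomial (Mon n (2 + 2)) k) :=
  Submodule.comap (LinearMap.mulRight (MvPolynomial (Mon n (2 + 2)) k) (hd e (zX k n)))
    (minorsIdeal k n 2 2 6)

theorem mem_J {k : Type u} [CommRing k] {n : ℕ} {e : Fin 7 → Fin n}
    {g : MvPolynomial (Mon n (2 + 2)) k} :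
    g ∈ J k n e ↔ g * hd e (zX k n) ∈ minorsIdeal k n 2 2 6 := by
  unfold J
  rw [Submodule.mem_comap, LinearMap.mulRight_apply]

theorem form_mem (H : S_VAN.{u}) (k : Type u) [Field k] [CharZero k] (n : ℕ) (e : Fin 7 → Fin n)
    (v : Fin n → k) : G k n v v v v ∈ (J k n e).radical := by
  set I := minorsIdeal k n 2 2 6 with hI
  set s := G k n v v v v with hs
  set sb : MvPolynomial (Mon n (2 + 2)) k ⧸ I := Ideal.Quotient.mk I s with hsb
  let A : Type u := Localization.Away sb
  set u : A := IsLocalization.Away.invSelf sb with hu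
  set φ : MvPolynomial (Mon n (2 + 2)) k →+* A :=
    (algebraMap (MvPolynomial (Mon n (2 + 2)) k ⧸ I) A).comp (Ideal.Quotient.mk I) with hφ
  have hus : φ s * u = 1 := IsLocalization.Away.mul_invSelf sb
  let _ : Algebra ℚ A := (φ.comp (C.comp (algebraMap ℚ k))).toAlgebra
  have hg := t_GEN k n
  have hrk : Rk6 (fun a b c d => u * φ (zX k n a b c d)) := by
    refine ⟨fun a b c d => ?_, fun a b c d => ?_, fun a b c d => ?_, fun r c => ?_⟩
    · rw [zX_s1 k n a b c d]
    · rw [zX_s2 k n a b c d]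
    · rw [zX_s3 k n a b c d]
    · have h1 : (Matrix.of fun i j => u * φ (zX k n (r i).1 (r i).2 (c j).1 (c j).2)) =
          u • (algebraMap (MvPolynomial (Mon n (2 + 2)) k ⧸ I) A).mapMatrix
            (Matrix.of fun i j => Ideal.Quotient.mk I (zX k n (r i).1 (r i).2 (c j).1 (c j).2)) := by
        ext i j
        rfl
      rw [h1, Matrix.det_smul, ← RingHom.map_det, hg.minor r c, map_zero, mul_zero]
  have hone : ∑ a, ∑ b, ∑ c, ∑ d, (fun a b c d => u * φ (zX k n a b c d)) a b c d *
      (φ (C (v a)) * φ (C (v b)) * φ (C (v c)) * φ (C (v d))) = 1 := by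
    rw [← hus, hs]
    unfold G
    simp only [map_sum, map_mul, Finset.sum_mul]
    refine Finset.sum_congr rfl fun a _ => Finset.sum_congr rfl fun b _ =>
      Finset.sum_congr rfl fun c _ => Finset.sum_congr rfl fun d _ => ?_
    ring
  have hz := H A n e (fun a b c d => u * φ (zX k n a b c d)) (fun a => φ (C (v a))) hrk hone
  rw [hd_map] at hz
  have hz' : φ (hd e (zX k n)) = 0 := by
    have h1 : φ (hd e (zX k n)) = φ s ^ 7 * (u ^ 7 * φ (hd e (zX k n))) := by
      rw [← mul_assoc, ← mul_pow, hus, one_pow, one_mul]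
    rw [h1, hz, mul_zero]
  have h2 : algebraMap (MvPolynomial (Mon n (2 + 2)) k ⧸ I) A
      (Ideal.Quotient.mk I (hd e (zX k n))) = 0 := hz'
  rw [IsLocalization.map_eq_zero_iff (Submonoid.powers sb) A] at h2
  obtain ⟨⟨m, N, hN⟩, hm⟩ := h2
  simp only at hm hN
  rw [← hN, hsb, ← map_pow, ← map_mul, Ideal.Quotient.eq_zero_iff_mem] at hm
  exact ⟨N, mem_J.2 hm⟩

theorem zX_mem (H : S_VAN.{u}) (k : Type u) [Field k] [CharZero k] (n : ℕ) (e : Fin 7 → Fin n)
    (a b c d : Fin n) : zX k n a b c d ∈ (J k n e).radical := by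
  have h1 := polar (V := Fin n → k) (M := MvPolynomial (Mon n (2 + 2)) k ⧸ (J k n e).radical)
    (fun x y z w => Ideal.Quotient.mk _ (G k n x y z w))
  have key : ∀ (q : ℕ) (hq : q ≠ 0) (m : MvPolynomial (Mon n (2 + 2)) k ⧸ (J k n e).radical),
      (q : k) • m = 0 → m = 0 := by
    intro q hq m hm
    have hq' : (q : k) ≠ 0 := Nat.cast_ne_zero.2 hq
    rw [← one_smul k m, ← inv_mul_cancel₀ hq', mul_smul, hm, smul_zero]
  have h2 := h1 ?_ ?_ ?_ ?_ ?_ ?_ ?_ (Pi.single a 1) (Pi.single b 1) (Pi.single c 1)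
    (Pi.single d 1)
  · simp only [G_single] at h2
    exact Ideal.Quotient.eq_zero_iff_mem.1 h2
  · intro m hm
    refine key 2 two_ne_zero m ?_
    rw [Nat.cast_ofNat, two_smul]
    exact hm
  · intro m hm
    refine key 3 three_ne_zero m ?_
    have : ((3 : ℕ) : k) = 1 + 1 + 1 := by norm_num
    rw [this, add_smul, add_smul, one_smul]
    exact hm
  · intro x y z w
    simp only [G_s1 k n x y z w]
  · intro x y z w
    simp only [G_s2 k n x y z w]
  · intro x y z w
    simp only [G_s3 k n x y z w]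
  · intro x x' y z w
    simp only [G_add, map_add]
  · intro x
    exact Ideal.Quotient.eq_zero_iff_mem.2 (form_mem H k n e x)

theorem t_NIL (H : S_VAN.{u}) : S_NIL.{u} := by
  intro k _ _ n e
  have h : irrelevant k n (2 + 2) ≤ (J k n e).radical := by
    unfold irrelevant
    rw [Ideal.span_le]
    rintro _ ⟨γ, rfl⟩
    obtain ⟨a, b, c, d, h1⟩ := X_eq_zX k n γ
    rw [h1]
    exact zX_mem H k n e a b c d
  have := finite_Mon n (2 + 2)
  obtain ⟨N, hN⟩ := Ideal.exists_pow_le_of_le_radical_of_fg h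
    ⟨(Set.finite_range X).toFinset, by rw [Set.Finite.coe_toFinset]; rfl⟩
  exact ⟨N, fun g hg => mem_J.1 (hN hg)⟩

end Pool.Agent.K1H39.CT
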